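import Pool.Agent.H31.Fill

set_option autoImplicit false

open Pool.Agent.H31

universe u v

theorem Pool.Agent.Results.MP_5f6599_gt.Neg.result (I : Type u) [Uncountable I] (X : I → Type v)
    [∀ i, TopologicalSpace (X i)] (h : ∀ i, ¬ CompactSpace (X i)) (D : Set (∀ i, X i))
    (hD : ∀ J : Set I, J.Nonempty → J.Countable → ∀ p : ∀ i : J, X i, ∃ y ∈ D, ∀ i : J, y i = p i) :
    ¬ ParacompactSpace D :=
  Fill.main h hD
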